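import Pool.Agent.H32.PCA

set_option autoImplicit false
open MeasureTheory ProbabilityTheory Filter Topology
open scoped ENNReal Pointwise
open Pool.Agent.H32.PCA

namespace Pool.Agent.Results.MP_3c7ff8_pr.Mixing

lemma tendsto_cyl {ι A : Type} [MeasurableSpace A] [Fintype A] [DiscreteMeasurableSpace A]
    [TopologicalSpace A] [DiscreteTopology A] (μ : ℕ → Measure (ι → A)) (π : Measure (ι → A))
    [∀ t, IsProbabilityMeasure (μ t)] [IsProbabilityMeasure π]
    (h : ∀ g : C(ι → A, ℝ), Tendsto (fun t : ℕ => ∫ x, g x ∂(μ t)) atTop (𝓝 (∫ x, g x ∂π)))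
    (S : Finset ι) (u : ι → A) :
    Tendsto (fun t => μ t (cyl S u)) atTop (𝓝 (π (cyl S u))) := by
  have hc : IsClopen (cyl S u) := by
    have : cyl S u = ⋂ k ∈ S, (fun x : ι → A => x k) ⁻¹' {u k} := by
      ext x
      simp [cyl]
    rw [this]
    exact S.finite_toSet.isClopen_biInter fun k _ =>
      (isClopen_discrete _).preimage (continuous_apply k)
  have hg : Continuous ((cyl S u).indicator (1 : (ι → A) → ℝ)) :=
    hc.continuous_indicator continuous_const
  have h1 := h ⟨_, hg⟩
  simp only [ContinuousMap.coe_mk, integral_indicator_one (measurableSet_cyl S u)] at h1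
  exact (ENNReal.tendsto_toReal_iff (fun t => measure_ne_top _ _) (measure_ne_top _ _)).1 h1

theorem result (d : ℕ) (A : Type) [Fintype A] [MeasurableSpace A] [DiscreteMeasurableSpace A]
    [TopologicalSpace A] [DiscreteTopology A] (N : Finset (Fin d → ℤ))
    (F : (N → A) → Measure A) (hF : ∀ u, IsProbabilityMeasure (F u))
    (π : Measure ((Fin d → ℤ) → A)) (h : IsErgodic N F π) :
    (∀ k : Fin d → ℤ, π.map (fun x i => x (i + k)) = π) ∧
    ∀ (S S' : Finset (Fin d → ℤ)) (u v : (Fin d → ℤ) → A),
      Tendsto (fun k : Fin d → ℤ => π (cyl S u ∩ (fun x i => x (i + k)) ⁻¹' cyl S' v))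
        (comap (fun k : Fin d → ℤ => ‖k‖) atTop) (𝓝 (π (cyl S u) * π (cyl S' v))) := by
  classical
  obtain ⟨hπ, hinv, huniq, hconv⟩ := h
  have hsh : ∀ k : Fin d → ℤ, π.map (shift k) = π := by
    intro k
    refine huniq _ (Measure.isProbabilityMeasure_map (measurable_shift k).aemeasurable) ?_
    rw [bind_map_shift, hinv]
  refine ⟨hsh, fun S S' u v => ?_⟩
  rw [comap_norm_atTop]
  refine Tendsto.mono_left ?_ (Bornology.le_cofinite _)
  set c := π (cyl S u) with hc
  have mC := measurableSet_cyl S u
  have mD := measurableSet_cyl S' v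
  let φ : ℕ → ((Fin d → ℤ) → A) → ℝ≥0∞ := fun t => (T N F)^[t] ((cyl S u).indicator 1)
  have mφ : ∀ t, Measurable (φ t) := fun t => measurable_T_iter N F (measurable_one.indicator mC) t
  have hφ1 : ∀ t x, φ t x ≤ 1 := fun t =>
    T_iter_le_one N F (g := (cyl S u).indicator 1) (fun x =>
      Set.indicator_apply_le' (fun _ => le_rfl) (fun _ => zero_le_one)) t
  have hφ : ∀ x, Tendsto (fun t => φ t x) atTop (𝓝 c) := by
    intro x
    have := tendsto_cyl (fun t => evolve N F t (Measure.dirac x)) π
      (hconv (Measure.dirac x) inferInstance) S u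
    simpa only [evolve_dirac N F mC] using this
  have hc1 : c ≤ 1 := prob_le_one
  have hct : c ≠ ⊤ := measure_ne_top _ _
  have he1 : Tendsto (fun t => ∫⁻ x, (φ t x - c) ∂π) atTop (𝓝 0) := by
    have := tendsto_lintegral_of_dominated_convergence (μ := π) (F := fun t x => φ t x - c)
      (f := fun _ => 0) (fun _ => 1) (fun t => (mφ t).sub measurable_const)
      (fun t => ae_of_all _ fun x => tsub_le_self.trans (hφ1 t x)) (by simp)
      (ae_of_all _ fun x => by
        have := ENNReal.Tendsto.sub (hφ x) (tendsto_const_nhds (x := c)) (Or.inl hct)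
        simpa using this)
    simpa using this
  have he2 : Tendsto (fun t => ∫⁻ x, (c - φ t x) ∂π) atTop (𝓝 0) := by
    have := tendsto_lintegral_of_dominated_convergence (μ := π) (F := fun t x => c - φ t x)
      (f := fun _ => 0) (fun _ => 1) (fun t => measurable_const.sub (mφ t))
      (fun t => ae_of_all _ fun x => tsub_le_self.trans hc1) (by simp)
      (ae_of_all _ fun x => by
        have := ENNReal.Tendsto.sub (tendsto_const_nhds (x := c)) (hφ x) (Or.inl hct)
        simpa using this)
    simpa using this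
  rw [ENNReal.tendsto_nhds (ENNReal.mul_ne_top hct (measure_ne_top _ _))]
  intro ε hε
  obtain ⟨t, ht1, ht2⟩ := ((he1.eventually (ge_mem_nhds hε)).and
    (he2.eventually (ge_mem_nhds hε))).exists
  have hfin : ∀ᶠ k : Fin d → ℤ in cofinite,
      ∀ j < t, Disjoint (S + j • N) ((S'.image fun i => i + k) + j • N) := by
    have : ∀ j : ℕ, ∀ᶠ k : Fin d → ℤ in cofinite,
        Disjoint (S + j • N) ((S'.image fun i => i + k) + j • N) := by
      intro j
      filter_upwards [(S + j • N - (S' + j • N)).eventually_cofinite_notMem] with k hk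
      rw [Finset.disjoint_left]
      intro a ha hb
      obtain ⟨b, hb', w, hw, rfl⟩ := Finset.mem_add.1 hb
      obtain ⟨i, hi, rfl⟩ := Finset.mem_image.1 hb'
      refine hk (Finset.mem_sub.2 ⟨_, ha, i + w, Finset.add_mem_add hi hw, ?_⟩)
      abel
    have h2 := (eventually_all_finset (Finset.range t)).2 fun j _ => this j
    filter_upwards [h2] with k hk j hj using hk j (Finset.mem_range.2 hj)
  filter_upwards [hfin] with k hk
  set D : Set ((Fin d → ℤ) → A) := shift k ⁻¹' cyl S' v with hD
  have mDk : MeasurableSet D := measurable_shift k mD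
  have hDπ : π D = π (cyl S' v) := by
    rw [hD, ← Measure.map_apply (measurable_shift k) mD, hsh]
  have hdep : DependsOn (D.indicator (1 : ((Fin d → ℤ) → A) → ℝ≥0∞))
      ((S'.image fun i => i + k : Finset (Fin d → ℤ)) : Set (Fin d → ℤ)) := by
    intro x y hxy
    have h1 : (cyl S' v).indicator (1 : ((Fin d → ℤ) → A) → ℝ≥0∞) (shift k x) =
        (cyl S' v).indicator 1 (shift k y) :=
      dependsOn_cyl S' v fun i hi => hxy _ (Finset.mem_coe.2 (Finset.mem_image_of_mem _ hi))
    exact h1
  let ψ : ((Fin d → ℤ) → A) → ℝ≥0∞ := (T N F)^[t] (D.indicator 1)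
  have mψ : Measurable ψ := measurable_T_iter N F (measurable_one.indicator mDk) t
  have hψ1 : ∀ x, ψ x ≤ 1 :=
    T_iter_le_one N F (g := D.indicator 1) (fun x =>
      Set.indicator_apply_le' (fun _ => le_rfl) (fun _ => zero_le_one)) t
  have hψ : ∫⁻ x, ψ x ∂π = π (cyl S' v) := by
    rw [← lintegral_evolve N F (measurable_one.indicator mDk), evolve_of_invariant N F hinv,
      lintegral_indicator_one mDk, hDπ]
  have hprod : π (cyl S u ∩ D) = ∫⁻ x, φ t x * ψ x ∂π := by
    have h1 := T_iter_mul N F t (dependsOn_cyl S u) hdep hk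
    have h2 : (fun y => (cyl S u).indicator (1 : ((Fin d → ℤ) → A) → ℝ≥0∞) y * D.indicator 1 y) =
        (cyl S u ∩ D).indicator 1 := by
      rw [Set.inter_indicator_one]
      rfl
    rw [h2] at h1
    rw [← lintegral_indicator_one (mC.inter mDk), ← evolve_of_invariant N F hinv t,
      lintegral_evolve N F (measurable_one.indicator (mC.inter mDk)), h1,
      evolve_of_invariant N F hinv t]
  show π (cyl S u ∩ D) ∈ _
  rw [hprod, ← hψ, ← lintegral_const_mul _ mψ]
  constructor
  · rw [tsub_le_iff_right]
    calc ∫⁻ x, c * ψ x ∂π ≤ ∫⁻ x, (φ t x * ψ x + (c - φ t x)) ∂π := by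
          refine lintegral_mono fun x => ?_
          calc c * ψ x ≤ (φ t x + (c - φ t x)) * ψ x := by
                gcongr
                exact le_add_tsub
            _ = φ t x * ψ x + (c - φ t x) * ψ x := add_mul _ _ _
            _ ≤ _ := by
                gcongr
                exact mul_le_of_le_one_right' (hψ1 x)
      _ = ∫⁻ x, φ t x * ψ x ∂π + ∫⁻ x, (c - φ t x) ∂π :=
          lintegral_add_left ((mφ t).mul mψ) _
      _ ≤ _ := by gcongr
  · calc ∫⁻ x, φ t x * ψ x ∂π ≤ ∫⁻ x, (c * ψ x + (φ t x - c)) ∂π := by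
          refine lintegral_mono fun x => ?_
          calc φ t x * ψ x ≤ (c + (φ t x - c)) * ψ x := by
                gcongr
                exact le_add_tsub
            _ = c * ψ x + (φ t x - c) * ψ x := add_mul _ _ _
            _ ≤ _ := by
                gcongr
                exact mul_le_of_le_one_right' (hψ1 x)
      _ = ∫⁻ x, c * ψ x ∂π + ∫⁻ x, (φ t x - c) ∂π :=
          lintegral_add_left (measurable_const.mul mψ) _
      _ ≤ _ := by gcongr

end Pool.Agent.Results.MP_3c7ff8_pr.Mixing
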